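import Mathlib
import Pool.Agent.N745.T1.Comb

/-!
# One pattern of dusty and solid members: the bound for a pair of radicals

After `Pool.Agent.N745.T1.one_pattern`; the bound is the geometric mean of the radicals of any two
members.
-/

set_option autoImplicit false

namespace Pool.Agent.V7H6.Box

open Finset Pool.Agent.H785R2.ABC Pool.Agent.H785R2.ABC.EC Pool.Agent.Y913
  Pool.Agent.Y913.Nb Pool.Agent.H705R2.ABC Pool.Agent.N745.T1

/-- **one pattern** -/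
theorem one_pattern (hF : Basics) (hA4 : StmtA4) (hJ : StmtJ) (η : ℝ) (hη : 0 < η) (M : ℕ)
    (hM : 1 ≤ M) (γ : ℝ) (hγ : 0 < γ) (hγ1 : γ ≤ 1) (M' : ℕ) (γ' : ℝ) (w t0 : ℕ)
    (hs : Step η M γ M' γ' w t0) : ∃ L : ℝ, 0 < L ∧ ∀ (K : ℕ) (lam e : ℝ), 0 < lam → 0 < e →
      1 ≤ e * ((K : ℝ) + 1) → ∃ D : ℝ, 0 < D ∧ ∀ T0 : Finset (ℕ × ℕ × ℕ), Cell K T0 →
      ∀ s ∈ T0, ∀ Y : ℝ, 1 ≤ Y → (s.2.2 : ℝ) ^ lam ≤ Y →
      (∀ t ∈ T0, (rad (t.1 * t.2.1 * t.2.2) : ℝ) ≤ Y) → (∀ t ∈ T0, Y ^ L ≤ (t.2.2 : ℝ)) →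
      ∀ p q r : Fin 3, p ≠ q → q ≠ r → p ≠ r →
      ∀ T : Finset (ℕ × ℕ × ℕ), T ⊆ T0 → ∀ S : Finset (Fin 3),
      (∀ t ∈ T, (∀ i ∈ S, Dusty Y γ' M' (num t i)) ∧ (∀ i ∉ S, ¬ Dusty Y γ M (num t i))) →
      (T.card : ℝ) ≤ D * (s.2.2 : ℝ) ^ (2 * e) * Y ^ η *
        ((rad (num s p) : ℝ) * rad (num s q)) ^ ((1 : ℝ) / 2) := by
  classical
  obtain ⟨L, D4, hL, hD4, h4⟩ := pat_sss (nb γ) M hM η hη
  refine ⟨L, hL, ?_⟩
  intro K lam e hlam he hK
  obtain ⟨D1, hD1, h1⟩ := pat_one hF hA4 (nb γ) w M M' K γ' lam e hs.hγ' hlam he hs.hM' hs.hKK1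
    hs.hw
  obtain ⟨D2, hD2, h2⟩ := pat_two hF (nb γ) w M M' K γ' lam e hs.hγ' hlam he hs.hM' hs.hKK2 hs.hw
  obtain ⟨D3, hD3, h3⟩ := pat_est hF hA4 hJ t0 M' K γ' e hs.hγ' he hs.ht0 hs.htM hK
  refine ⟨D1 + D2 + D3 + D4, by positivity, ?_⟩
  intro T0 hT s hsT Y hY hcY hradY hYL p q r hpq hqr hpr T hTT S hpat
  have hY0 : (0 : ℝ) < Y := by linarith
  have hc1 : 1 ≤ s.2.2 := (hT.abc s hsT).2.2.1
  have hcR : (1 : ℝ) ≤ s.2.2 := by exact_mod_cast hc1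
  have hcR0 : (0 : ℝ) < s.2.2 := by linarith
  have hce : (1 : ℝ) ≤ (s.2.2 : ℝ) ^ (2 * e) := Real.one_le_rpow hcR (by positivity)
  have hce' : (s.2.2 : ℝ) ^ e ≤ (s.2.2 : ℝ) ^ (2 * e) :=
    Real.rpow_le_rpow_of_exponent_le hcR (by linarith)
  -- the radicals
  have hradj : ∀ t ∈ T0, ∀ j, (rad (num t j) : ℝ) ≤ Y := by
    intro t ht j
    refine le_trans ?_ (hradY t ht)
    rw [← rad_abc (hT.abc t ht)]
    have g0 := rad_pos (num t 0)
    have g1 := rad_pos (num t 1)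
    have g2 := rad_pos (num t 2)
    have : rad (num t j) ≤ rad (num t 0) * rad (num t 1) * rad (num t 2) := by
      fin_cases j
      · calc rad (num t 0) = rad (num t 0) * 1 * 1 := by ring
          _ ≤ _ := Nat.mul_le_mul (Nat.mul_le_mul le_rfl g1) g2
      · calc rad (num t 1) = 1 * rad (num t 1) * 1 := by ring
          _ ≤ _ := Nat.mul_le_mul (Nat.mul_le_mul g0 le_rfl) g2
      · calc rad (num t 2) = 1 * 1 * rad (num t 2) := by ring
          _ ≤ _ := Nat.mul_le_mul (Nat.mul_le_mul g0 g1) le_rfl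
    exact_mod_cast this
  set u : Fin 3 → ℝ := fun j => (rad (num s j) : ℝ) with hu
  have hrd : ∀ j, (rd K (num s j) univ : ℝ) = u j := fun j => by rw [hu, hF.rd_univ]
  have hu1 : ∀ j, 1 ≤ u j := fun j => by
    show (1 : ℝ) ≤ (rad (num s j) : ℝ)
    exact_mod_cast rad_pos _
  have huY : ∀ j, (rd K (num s j) univ : ℝ) ≤ Y := fun j => by
    rw [hF.rd_univ]
    exact hradj s hsT j
  -- solid members
  have hsolid : ∀ t ∈ T, ∀ i ∉ S, NB (nb γ) (Y ^ (2 * M)) (num t i) := by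
    intro t ht i hi
    have hm := num_pos (hT.abc t (hTT ht)) i
    exact nb_of_not_dusty hY hγ hγ1 hM (Nat.le_ceil _) hm (hradj t (hTT ht) i)
      ((hpat t ht).2 i hi)
  have hsm1 : γ' + 2 * γ' * ((nb γ : ℕ) : ℝ) ^ 2 ≤ η := by
    refine le_trans ?_ hs.small
    have h6 : ((nb γ : ℕ) : ℝ) ^ 2 ≤ ((2 * nb γ : ℕ) : ℝ) ^ 2 := by
      apply pow_le_pow_left₀ (Nat.cast_nonneg _)
      exact_mod_cast (by omega : nb γ ≤ 2 * nb γ)
    have h7 := mul_le_mul_of_nonneg_left h6 (by linarith [hs.hγ'] : (0 : ℝ) ≤ 2 * γ')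
    linarith
  have hsm0 : γ' ≤ η := by
    refine le_trans ?_ hsm1
    have := hs.hγ'
    have h6 : (0 : ℝ) ≤ 2 * γ' * ((nb γ : ℕ) : ℝ) ^ 2 := by positivity
    linarith
  have hYη : Y ^ γ' ≤ Y ^ η := Real.rpow_le_rpow_of_exponent_le hY hsm0
  have hup0 : 0 < u p := by linarith [hu1 p]
  have huq0 : 0 < u q := by linarith [hu1 q]
  -- the geometric mean
  obtain ⟨g, hg⟩ : ∃ g, g = (u p * u q) ^ ((1 : ℝ) / 2) := ⟨_, rfl⟩
  have hg1 : 1 ≤ g := by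
    rw [hg]
    apply Real.one_le_rpow _ (by norm_num)
    have := mul_le_mul (hu1 p) (hu1 q) zero_le_one hup0.le
    linarith
  have hgm : min (u p) (u q) ≤ g := by
    rw [hg]
    have h6 : min (u p) (u q) * min (u p) (u q) ≤ u p * u q :=
      mul_le_mul (min_le_left _ _) (min_le_right _ _) (le_min hup0.le huq0.le) hup0.le
    calc min (u p) (u q) = ((min (u p) (u q)) * (min (u p) (u q))) ^ ((1 : ℝ) / 2) := by
          rw [← sq, ← Real.rpow_natCast, ← Real.rpow_mul (le_min hup0.le huq0.le)]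
          norm_num
      _ ≤ _ := Real.rpow_le_rpow (by positivity) h6 (by norm_num)
  set G : ℝ := (s.2.2 : ℝ) ^ (2 * e) * (Y ^ η * g) with hG
  have hG0 : 0 ≤ G := by rw [hG]; positivity
  -- the claims
  have claimA : r ∈ S → (T.card : ℝ) ≤ D3 * G := by
    intro hr
    have h5 := h3 T0 hT s hsT Y hY huY p q r hpq hqr hpr T hTT (fun t ht => (hpat t ht).1 r hr)
    refine h5.trans ?_
    rw [hrd p, hrd q, ← hg]
    calc D3 * (s.2.2 : ℝ) ^ (2 * e) * Y ^ γ' * g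
        ≤ D3 * (s.2.2 : ℝ) ^ (2 * e) * Y ^ η * g := by gcongr
      _ = D3 * G := by rw [hG]; ring
  have claimB : ∀ p' q' r' : Fin 3, p' ≠ q' → q' ≠ r' → p' ≠ r' → r' ∈ S → p' ∉ S →
      (T.card : ℝ) ≤ D1 * ((s.2.2 : ℝ) ^ (2 * e) * (Y ^ η * u q')) := by
    intro p' q' r' hpq' hqr' hpr' hr' hp'
    have h5 := h1 T0 hT s hsT Y hY hcY p' q' r' hpq' hqr' hpr' T hTT
      (fun t ht => (hpat t ht).1 r' hr') (fun t ht => hsolid t ht p' hp')
    refine h5.trans ?_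
    rw [hrd q']
    have h9 : Y ^ (γ' + 2 * γ' * ((nb γ : ℕ) : ℝ) ^ 2) ≤ Y ^ η :=
      Real.rpow_le_rpow_of_exponent_le hY hsm1
    calc D1 * (s.2.2 : ℝ) ^ e * Y ^ (γ' + 2 * γ' * ((nb γ : ℕ) : ℝ) ^ 2) * u q'
        ≤ D1 * (s.2.2 : ℝ) ^ (2 * e) * Y ^ η * u q' := by
          have := hu1 q'
          gcongr
      _ = _ := by ring
  have claimC : ∀ p' q' r' : Fin 3, p' ≠ q' → q' ≠ r' → p' ≠ r' → r' ∈ S → p' ∉ S → q' ∉ S →
      (T.card : ℝ) ≤ D2 * G := by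
    intro p' q' r' hpq' hqr' hpr' hr' hp' hq'
    have h5 := h2 T0 hT s hsT Y hY hcY p' q' r' hpq' hqr' hpr' T hTT
      (fun t ht => (hpat t ht).1 r' hr') (fun t ht => hsolid t ht p' hp')
      (fun t ht => hsolid t ht q' hq')
    refine h5.trans ?_
    have h9 : Y ^ (γ' + 2 * γ' * ((2 * nb γ : ℕ) : ℝ) ^ 2) ≤ Y ^ η :=
      Real.rpow_le_rpow_of_exponent_le hY hs.small
    calc D2 * (s.2.2 : ℝ) ^ e * Y ^ (γ' + 2 * γ' * ((2 * nb γ : ℕ) : ℝ) ^ 2)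
        ≤ D2 * (s.2.2 : ℝ) ^ (2 * e) * Y ^ η := by gcongr
      _ = D2 * (s.2.2 : ℝ) ^ (2 * e) * Y ^ η * 1 := (mul_one _).symm
      _ ≤ D2 * (s.2.2 : ℝ) ^ (2 * e) * Y ^ η * g :=
          mul_le_mul_of_nonneg_left hg1 (by positivity)
      _ = D2 * G := by rw [hG]; ring
  have claimD : S = ∅ → (T.card : ℝ) ≤ D4 * G := by
    intro hS
    have h5 := h4 T Y hY (fun t ht => hT.abc t (hTT ht))
      (fun t ht j => hsolid t ht j (by rw [hS]; exact notMem_empty j))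
      (fun t ht => hYL t (hTT ht))
    refine h5.trans ?_
    apply mul_le_mul_of_nonneg_left _ hD4.le
    calc Y ^ η = 1 * (Y ^ η * 1) := by ring
      _ ≤ G := by rw [hG]; gcongr
  have hfin : ∀ D' : ℝ, D' ≤ D1 + D2 + D3 + D4 → (T.card : ℝ) ≤ D' * G →
      (T.card : ℝ) ≤ (D1 + D2 + D3 + D4) * (s.2.2 : ℝ) ^ (2 * e) * Y ^ η *
        ((rad (num s p) : ℝ) * rad (num s q)) ^ ((1 : ℝ) / 2) := by
    intro D' h5 h6
    have h7 : (D1 + D2 + D3 + D4) * (s.2.2 : ℝ) ^ (2 * e) * Y ^ η *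
        ((rad (num s p) : ℝ) * rad (num s q)) ^ ((1 : ℝ) / 2) = (D1 + D2 + D3 + D4) * G := by
      rw [hG, hg]
      ring
    rw [h7]
    exact h6.trans (mul_le_mul_of_nonneg_right h5 hG0)
  by_cases hr : r ∈ S
  · exact hfin D3 (by linarith) (claimA hr)
  by_cases hp : p ∈ S <;> by_cases hq : q ∈ S
  · -- `p` and `q` dusty, `r` solid
    have a1 := claimB r q p (Ne.symm hqr) (Ne.symm hpq) (Ne.symm hpr) hp hr
    have a2 := claimB r p q (Ne.symm hpr) hpq (Ne.symm hqr) hq hr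
    refine hfin D1 (by linarith) ?_
    have h6 : (T.card : ℝ) ≤ D1 * ((s.2.2 : ℝ) ^ (2 * e) * (Y ^ η * min (u p) (u q))) := by
      rcases min_choice (u p) (u q) with h | h
      · rw [h]; exact a2
      · rw [h]; exact a1
    refine h6.trans ?_
    rw [hG]
    gcongr
  · exact hfin D2 (by linarith) (claimC q r p hqr (Ne.symm hpr) (Ne.symm hpq) hp hq hr)
  · exact hfin D2 (by linarith) (claimC p r q hpr (Ne.symm hqr) hpq hq hp hr)
  · refine hfin D4 (by linarith) (claimD ?_)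
    rw [Finset.eq_empty_iff_forall_notMem]
    intro i hi
    have hall : i = p ∨ i = q ∨ i = r := by
      revert hpq hqr hpr
      clear * -
      fin_cases p <;> fin_cases q <;> fin_cases r <;> fin_cases i <;> simp
    rcases hall with rfl | rfl | rfl
    · exact hp hi
    · exact hq hi
    · exact hr hi

end Pool.Agent.V7H6.Box
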