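import Mathlib
import Pool.Agent.V7H6.Box.Comb
import Pool.Agent.N745.T1.Third

/-!
# abc-triples in a box of radicals: the count in terms of the height
-/

set_option autoImplicit false

namespace Pool.Agent.V7H6.Box

open Finset Pool.Agent.H785R2.ABC Pool.Agent.H785R2.ABC.EC Pool.Agent.H785R2.ABC.Fin1
  Pool.Agent.H705R2.ABC Pool.Agent.N745.T1

/-- bound for all cells in terms of the radicals of two members -/
def CellsB (lam θ : ℝ) : Prop :=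
  ∀ ε : ℝ, 0 < ε → ∃ (K : ℕ) (D : ℝ), 0 < D ∧ ∀ T : Finset (ℕ × ℕ × ℕ), Cell K T →
    (∀ s ∈ T, (rad (s.1 * s.2.1 * s.2.2) : ℝ) ≤ (s.2.2 : ℝ) ^ lam) → ∀ s ∈ T,
    ∀ p q : Fin 3, p ≠ q →
    (T.card : ℝ) ≤ D * (s.2.2 : ℝ) ^ (θ + ε) *
      ((rad (num s p) : ℝ) * rad (num s q)) ^ ((1 : ℝ) / 2)

/-- the bound for all cells -/
theorem cells_box (hF : Basics) (hA4 : StmtA4) (hJ : StmtJ) (η : ℝ) (hη : 0 < η) :
    ∃ lam0 : ℝ, 0 < lam0 ∧ lam0 ≤ 1 ∧ ∀ lam : ℝ, 0 < lam → lam ≤ lam0 →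
      CellsB lam (η * lam) := by
  classical
  obtain ⟨M, γ, w, t0, hlev⟩ := exists_levels η hη
  have hpat := fun j : Fin 4 => Box.one_pattern hF hA4 hJ η hη (M j) (hlev j).1.1 (γ j)
    (hlev j).1.2.1 (hlev j).1.2.2 (M (j + 1)) (γ (j + 1)) (w j) (t0 j) (hlev j).2
  choose Lf hLf hpat using hpat
  set L : ℝ := ∑ j, Lf j with hL
  have hL0 : 0 < L := sum_pos (fun j _ => hLf j) univ_nonempty
  have hLle : ∀ j, Lf j ≤ L := fun j => single_le_sum (fun i _ => (hLf i).le) (mem_univ j)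
  refine ⟨min 1 (1 / (2 * L)), lt_min one_pos (by positivity), min_le_left _ _, ?_⟩
  intro lam hlam hlam0 ε hε
  have hlam1 : lam ≤ 1 := hlam0.trans (min_le_left _ _)
  have hlamL : lam * L ≤ 1 / 2 := by
    have h1 : lam ≤ 1 / (2 * L) := hlam0.trans (min_le_right _ _)
    rw [le_div_iff₀ (by positivity)] at h1
    linarith
  obtain ⟨e, he⟩ : ∃ e : ℝ, e = ε / 2 := ⟨_, rfl⟩
  have he0 : 0 < e := by rw [he]; positivity
  obtain ⟨K, hK⟩ := exists_nat_ge (1 / e)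
  have hK1 : 1 ≤ e * ((K : ℝ) + 1) := by
    rw [div_le_iff₀ he0] at hK
    nlinarith
  have hD := fun j => hpat j K lam e hlam he0 hK1
  choose Df hDf hbd using hD
  obtain ⟨Ds, hDs, hsm⟩ := card_small hF K (8 ^ (K + 1))
  set k : ℝ := (2 : ℝ) ^ (K + 1) with hk
  have hk1 : 1 ≤ k := one_le_pow₀ (by norm_num)
  set DD : ℝ := ∑ j, Df j with hDD
  have hDD0 : 0 < DD := sum_pos (fun j _ => hDf j) univ_nonempty
  have hDle : ∀ j, Df j ≤ DD := fun j => single_le_sum (fun i _ => (hDf i).le) (mem_univ j)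
  refine ⟨K, Ds + 32 * DD * k ^ (η * lam), by positivity, ?_⟩
  intro T0 hT hrad s hs p q hpq
  obtain ⟨r, hqr, hpr⟩ : ∃ r : Fin 3, q ≠ r ∧ p ≠ r := by
    revert hpq
    clear * -
    fin_cases p <;> fin_cases q <;> decide
  obtain ⟨g, hg⟩ : ∃ g, g = ((rad (num s p) : ℝ) * rad (num s q)) ^ ((1 : ℝ) / 2) := ⟨_, rfl⟩
  have hg1 : 1 ≤ g := by
    rw [hg]
    apply Real.one_le_rpow _ (by norm_num)
    have h1 := rad_pos (num s p)
    have h2 := rad_pos (num s q)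
    exact_mod_cast Nat.mul_pos h1 h2
  rw [← hg]
  have hc1 : 1 ≤ s.2.2 := (hT.abc s hs).2.2.1
  have hcR : (1 : ℝ) ≤ s.2.2 := by exact_mod_cast hc1
  have hcR0 : (0 : ℝ) < s.2.2 := by linarith
  have hce : (1 : ℝ) ≤ (s.2.2 : ℝ) ^ (η * lam + ε) :=
    Real.one_le_rpow hcR (by positivity)
  rcases le_or_gt s.2.2 (8 ^ (K + 1)) with hsc | hsc
  · have h1 := hsm T0 hT s hs hsc
    have h2 : Ds ≤ Ds + 32 * DD * k ^ (η * lam) := le_add_of_nonneg_right (by positivity)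
    calc (T0.card : ℝ) ≤ Ds + 32 * DD * k ^ (η * lam) := h1.trans h2
      _ = (Ds + 32 * DD * k ^ (η * lam)) * 1 * 1 := by ring
      _ ≤ (Ds + 32 * DD * k ^ (η * lam)) * (s.2.2 : ℝ) ^ (η * lam + ε) * g := by gcongr
  set Y : ℝ := (k * (s.2.2 : ℝ)) ^ lam with hY
  have hkc : (1 : ℝ) ≤ k * (s.2.2 : ℝ) := one_le_mul_of_one_le_of_one_le hk1 hcR
  have hY1 : 1 ≤ Y := Real.one_le_rpow hkc hlam.le
  have hY0 : 0 < Y := by linarith
  have hcY : (s.2.2 : ℝ) ^ lam ≤ Y := by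
    apply Real.rpow_le_rpow hcR0.le _ hlam.le
    nlinarith
  have hcomp : ∀ t ∈ T0, (t.2.2 : ℝ) ≤ k * (s.2.2 : ℝ) ∧ (s.2.2 : ℝ) ≤ k * (t.2.2 : ℝ) := by
    intro t ht
    have h1 := num_cmp hF hT ht hs 2
    have h2 := num_cmp hF hT hs ht 2
    simp only [num] at h1 h2
    constructor
    · rw [hk]
      exact_mod_cast h1
    · rw [hk]
      exact_mod_cast h2
  have hradY : ∀ t ∈ T0, (rad (t.1 * t.2.1 * t.2.2) : ℝ) ≤ Y := by
    intro t ht
    exact (hrad t ht).trans (Real.rpow_le_rpow (Nat.cast_nonneg _) (hcomp t ht).1 hlam.le)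
  have hscR : (8 : ℝ) ^ (K + 1) ≤ (s.2.2 : ℝ) := by exact_mod_cast hsc.le
  have hk3 : k * k * k = (8 : ℝ) ^ (K + 1) := by
    rw [hk, ← mul_pow, ← mul_pow]
    norm_num
  have hYL : ∀ t ∈ T0, Y ^ L ≤ (t.2.2 : ℝ) := by
    intro t ht
    have ht1 : (1 : ℝ) ≤ (t.2.2 : ℝ) := by exact_mod_cast (hT.abc t ht).2.2.1
    have h1 : k * k ≤ (t.2.2 : ℝ) := by
      have h2 := (hcomp t ht).2
      have h3 : k * k * k ≤ k * (t.2.2 : ℝ) := by rw [hk3]; linarith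
      have h4 : (k * k) * k ≤ (t.2.2 : ℝ) * k := by linarith
      exact le_of_mul_le_mul_right h4 (by linarith)
    calc Y ^ L = (k * (s.2.2 : ℝ)) ^ (lam * L) := by rw [hY, ← Real.rpow_mul (by positivity)]
      _ ≤ (k * (s.2.2 : ℝ)) ^ ((1 : ℝ) / 2) := Real.rpow_le_rpow_of_exponent_le hkc hlamL
      _ ≤ ((t.2.2 : ℝ) * (t.2.2 : ℝ)) ^ ((1 : ℝ) / 2) := by
          apply Real.rpow_le_rpow (by positivity) _ (by norm_num)
          calc k * (s.2.2 : ℝ) ≤ k * (k * (t.2.2 : ℝ)) :=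
                mul_le_mul_of_nonneg_left (hcomp t ht).2 (by linarith)
            _ = (k * k) * (t.2.2 : ℝ) := by ring
            _ ≤ (t.2.2 : ℝ) * (t.2.2 : ℝ) := mul_le_mul_of_nonneg_right h1 (by linarith)
      _ = (t.2.2 : ℝ) := by
          rw [← sq, ← Real.rpow_natCast, ← Real.rpow_mul (by linarith)]
          norm_num
  -- the pieces
  let piece : Fin 4 × Finset (Fin 3) → Finset (ℕ × ℕ × ℕ) := fun x => T0.filter fun t =>
    (∀ i ∈ x.2, Dusty Y (γ (x.1 + 1)) (M (x.1 + 1)) (num t i)) ∧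
      (∀ i ∉ x.2, ¬ Dusty Y (γ x.1) (M x.1) (num t i))
  have hcov : T0 ⊆ univ.biUnion piece := by
    intro t ht
    obtain ⟨j, hj⟩ := exists_good hY1 hlev (fun i => num t i)
    rw [mem_biUnion]
    refine ⟨(j, univ.filter fun i => Dusty Y (γ (j + 1)) (M (j + 1)) (num t i)), mem_univ _, ?_⟩
    rw [mem_filter]
    refine ⟨ht, ?_, ?_⟩
    · intro i hi
      exact (mem_filter.1 hi).2
    · intro i hi
      have h1 : ¬ Dusty Y (γ (j + 1)) (M (j + 1)) (num t i) := fun h2 =>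
        hi (mem_filter.2 ⟨mem_univ _, h2⟩)
      exact (hj i).resolve_left h1
  set G : ℝ := (s.2.2 : ℝ) ^ (2 * e) * Y ^ η * g with hG
  have hG0 : 0 ≤ G := by rw [hG]; positivity
  have hpiece : ∀ x, ((piece x).card : ℝ) ≤ DD * G := by
    intro x
    have h1 := hbd x.1 T0 hT s hs Y hY1 hcY hradY (fun t ht =>
      (Real.rpow_le_rpow_of_exponent_le hY1 (hLle x.1)).trans (hYL t ht)) p q r hpq hqr hpr (piece x)
      (filter_subset _ _) x.2 (fun t ht => (mem_filter.1 ht).2)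
    rw [← hg, mul_assoc, mul_assoc, ← mul_assoc ((s.2.2 : ℝ) ^ (2 * e))] at h1
    exact h1.trans (mul_le_mul_of_nonneg_right (hDle _) hG0)
  have hsum : (T0.card : ℝ) ≤ 32 * DD * G := by
    have h1 : (T0.card : ℝ) ≤ ∑ x, ((piece x).card : ℝ) := by
      have h2 := (card_le_card hcov).trans card_biUnion_le
      exact_mod_cast h2
    calc (T0.card : ℝ) ≤ ∑ x, ((piece x).card : ℝ) := h1
      _ ≤ ∑ _x : Fin 4 × Finset (Fin 3), DD * G := sum_le_sum fun x _ => hpiece x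
      _ = 32 * DD * G := by
        rw [sum_const, card_univ, Fintype.card_prod, Fintype.card_finset, Fintype.card_fin,
          Fintype.card_fin, nsmul_eq_mul]
        norm_num
        ring
  have hYe : Y ^ η = k ^ (η * lam) * (s.2.2 : ℝ) ^ (η * lam) := by
    rw [hY, ← Real.rpow_mul (by positivity), Real.mul_rpow (by positivity) hcR0.le,
      mul_comm lam]
  calc (T0.card : ℝ) ≤ 32 * DD * G := hsum
    _ = 32 * DD * k ^ (η * lam) *
        ((s.2.2 : ℝ) ^ (η * lam) * (s.2.2 : ℝ) ^ (2 * e)) * g := by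
        rw [hG, hYe]; ring
    _ = 32 * DD * k ^ (η * lam) * (s.2.2 : ℝ) ^ (η * lam + ε) * g := by
        rw [← Real.rpow_add hcR0]
        congr 4
        rw [he]
        ring
    _ ≤ _ := by
        apply mul_le_mul_of_nonneg_right _ (by positivity)
        apply mul_le_mul_of_nonneg_right _ (by positivity)
        exact le_add_of_nonneg_left hDs.le

/-- the triples with `c ≤ X`, `rad (abc) ≤ c ^ lam` in a box of radicals -/
def BX (lam : ℝ) (X : ℕ) (Rb : Fin 3 → ℕ) : Set (ℕ × ℕ × ℕ) :=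
  {t | IsABCTriple t.1 t.2.1 t.2.2 ∧ t.2.2 ≤ X ∧
    (rad (t.1 * t.2.1 * t.2.2) : ℝ) ≤ (t.2.2 : ℝ) ^ lam ∧ ∀ j, rad (num t j) ≤ Rb j}

theorem BX_fin (lam : ℝ) (X : ℕ) (Rb : Fin 3 → ℕ) : (BX lam X Rb).Finite := by
  refine Set.Finite.subset (Finset.finite_toSet
      ((Finset.range (X + 1)) ×ˢ (Finset.range (X + 1)) ×ˢ (Finset.range (X + 1)))) ?_
  rintro ⟨a, b, c⟩ ⟨⟨h1, h2, h3, h4, h5⟩, h6, h7⟩
  simp only at h1 h2 h4 h6
  simp only [Finset.coe_product, Set.mem_prod, Finset.coe_range, Set.mem_Iio]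
  omega

/-- one cell -/
lemma cell_cardB (hF : Basics) (lam θ : ℝ) (hθ : 0 ≤ θ) (h : CellsB lam θ) (ε : ℝ)
    (hε : 0 < ε) :
    ∃ (K : ℕ) (D : ℝ), 0 < D ∧ ∀ X : ℕ, 1 ≤ X → ∀ Rb : Fin 3 → ℕ, ∀ T : Finset (ℕ × ℕ × ℕ),
      (∀ s ∈ T, s ∈ BX lam X Rb ∧ s.1 ≤ s.2.1) →
      (∀ s ∈ T, ∀ s' ∈ T, Fin1.sg K s = Fin1.sg K s') → ∀ p q : Fin 3, p ≠ q →
      (T.card : ℝ) ≤ D * (X : ℝ) ^ (θ + ε) * ((Rb p : ℝ) * Rb q) ^ ((1 : ℝ) / 2) := by
  obtain ⟨K, D, hD, hc⟩ := h ε hε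
  refine ⟨K, D, hD, ?_⟩
  intro X hX Rb T hT hsg p q hpq
  rcases T.eq_empty_or_nonempty with h0 | ⟨s, hs⟩
  · subst h0
    simp only [card_empty, Nat.cast_zero]
    positivity
  · have hcell := cell_of hF K T (fun s hs => (hT s hs).1.1) (fun s hs => (hT s hs).2) hsg
    refine (hc T hcell (fun s hs => (hT s hs).1.2.2.1) s hs p q hpq).trans ?_
    have h1 : (s.2.2 : ℝ) ^ (θ + ε) ≤ (X : ℝ) ^ (θ + ε) :=
      Real.rpow_le_rpow (Nat.cast_nonneg _) (by exact_mod_cast (hT s hs).1.2.1) (by linarith)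
    have h2 : ((rad (num s p) : ℝ) * rad (num s q)) ^ ((1 : ℝ) / 2) ≤
        ((Rb p : ℝ) * Rb q) ^ ((1 : ℝ) / 2) := by
      apply Real.rpow_le_rpow (by positivity) _ (by norm_num)
      have e1 : (rad (num s p) : ℝ) ≤ Rb p := by exact_mod_cast (hT s hs).1.2.2.2 p
      have e2 : (rad (num s q) : ℝ) ≤ Rb q := by exact_mod_cast (hT s hs).1.2.2.2 q
      gcongr
    gcongr

/-- the ordered triples of a box -/
theorem count_ord (hF : Basics) (lam θ : ℝ) (hθ : 0 ≤ θ) (h : CellsB lam θ) (ε : ℝ)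
    (hε : 0 < ε) : ∃ C : ℝ, 0 < C ∧ ∀ X : ℕ, 1 ≤ X → ∀ Rb : Fin 3 → ℕ,
      ∀ A1 : Finset (ℕ × ℕ × ℕ), (∀ s ∈ A1, s ∈ BX lam X Rb ∧ s.1 ≤ s.2.1) →
      ∀ p q : Fin 3, p ≠ q →
      (A1.card : ℝ) ≤ C * (X : ℝ) ^ (θ + ε) * ((Rb p : ℝ) * Rb q) ^ ((1 : ℝ) / 2) := by
  classical
  obtain ⟨K, D, hD, hcell⟩ := cell_cardB hF lam θ hθ h (ε / 2) (by positivity)
  set m : ℕ := 2 * ((K + 1) * 3) with hm
  have hmpos : (0 : ℝ) < m := by
    rw [hm]; positivity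
  set η : ℝ := ε / 2 / m with hη
  have hηpos : 0 < η := by rw [hη]; positivity
  refine ⟨(1 + 2 / η) ^ m * D, by positivity, ?_⟩
  intro X hX Rb A1 hAm p q hpq
  have hX' : (1 : ℝ) ≤ X := by exact_mod_cast hX
  have hXp : (0 : ℝ) < X := by linarith
  obtain ⟨g, hg⟩ : ∃ g, g = ((Rb p : ℝ) * Rb q) ^ ((1 : ℝ) / 2) := ⟨_, rfl⟩
  have hg0 : 0 ≤ g := by rw [hg]; positivity
  rw [← hg]
  set L := Nat.log 2 X with hL
  -- signatures
  have hsgle : ∀ t ∈ A1, ∀ j i, (Fin1.sg K t j i).1 ≤ L ∧ (Fin1.sg K t j i).2 ≤ L := by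
    intro t ht j i
    obtain ⟨h1, h2, _⟩ := (hAm t ht).1
    have hn := Fin1.num_pos h1 j
    have hnX : num t j ≤ X := (Fin1.num_le h1 j).trans h2
    constructor
    · change Nat.log 2 (rd K (num t j) {i}) ≤ Nat.log 2 X
      apply Nat.log_mono_right
      have e1 : rd K (num t j) {i} ∣ rad (num t j) := by
        rw [← hF.rd_univ K (num t j)]
        exact hF.rd_dvd K _ _ _ (subset_univ _)
      have e2 : rad (num t j) ∣ num t j := Nat.prod_primeFactors_dvd _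
      exact (Nat.le_of_dvd hn (e1.trans e2)).trans hnX
    · change Nat.log 2 (part K (num t j) {i}) ≤ Nat.log 2 X
      apply Nat.log_mono_right
      exact (Nat.le_of_dvd hn (hF.part_dvd K _ _ hn)).trans hnX
  set sgF : (ℕ × ℕ × ℕ) → (Fin 3 → Fin (K + 1) → Fin (L + 1) × Fin (L + 1)) := fun t j i =>
    (Fin.ofNat (L + 1) (Fin1.sg K t j i).1, Fin.ofNat (L + 1) (Fin1.sg K t j i).2) with hsgF
  have hinj : ∀ t ∈ A1, ∀ t' ∈ A1, sgF t = sgF t' → Fin1.sg K t = Fin1.sg K t' := by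
    intro t ht t' ht' h
    funext j i
    have h1 := congrFun (congrFun h j) i
    simp only [hsgF, Prod.mk.injEq] at h1
    have a1 := hsgle t ht j i
    have a2 := hsgle t' ht' j i
    have b1 := congrArg Fin.val h1.1
    have b2 := congrArg Fin.val h1.2
    simp only [Fin.ofNat] at b1 b2
    rw [Nat.mod_eq_of_lt (by omega), Nat.mod_eq_of_lt (by omega)] at b1 b2
    exact Prod.ext b1 b2
  have hA1card : (A1.card : ℝ) ≤ ((L + 1 : ℕ) : ℝ) ^ m * (D * (X : ℝ) ^ (θ + ε / 2) * g) := by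
    have h1 := card_eq_sum_card_fiberwise (f := sgF) (s := A1) (t := univ) (fun _ _ => mem_coe.2 (mem_univ _))
    rw [h1]
    push_cast
    calc ∑ σ : (Fin 3 → Fin (K + 1) → Fin (L + 1) × Fin (L + 1)),
          ((A1.filter (fun t => sgF t = σ)).card : ℝ)
        ≤ ∑ σ : (Fin 3 → Fin (K + 1) → Fin (L + 1) × Fin (L + 1)), D * (X : ℝ) ^ (θ + ε / 2) * g := by
          apply sum_le_sum
          intro σ _
          rw [hg]
          refine hcell X hX Rb _ ?_ ?_ p q hpq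
          · intro s hs
            rw [mem_filter] at hs
            exact hAm s hs.1
          · intro s hs s' hs'
            rw [mem_filter] at hs hs'
            exact hinj s hs.1 s' hs'.1 (hs.2.trans hs'.2.symm)
      _ = _ := by
          rw [sum_const, nsmul_eq_mul, card_univ]
          congr 1
          simp only [Fintype.card_fun, Fintype.card_prod, Fintype.card_fin]
          have e3 : ((L + 1) * (L + 1)) = (L + 1) ^ 2 := by ring
          rw [e3, ← pow_mul, ← pow_mul, Nat.cast_pow]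
          rw [← hm]
          push_cast
          rfl
  have hLb := log_le X hX η hηpos
  have hLm : ((L + 1 : ℕ) : ℝ) ^ m ≤ (1 + 2 / η) ^ m * (X : ℝ) ^ (ε / 2) := by
    calc ((L + 1 : ℕ) : ℝ) ^ m ≤ ((1 + 2 / η) * (X : ℝ) ^ η) ^ m :=
          pow_le_pow_left₀ (Nat.cast_nonneg _) hLb m
      _ = (1 + 2 / η) ^ m * (X : ℝ) ^ (ε / 2) := by
          rw [mul_pow]
          congr 1
          rw [← Real.rpow_natCast, ← Real.rpow_mul hXp.le]
          congr 1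
          rw [hη]; field_simp
  calc (A1.card : ℝ) ≤ ((L + 1 : ℕ) : ℝ) ^ m * (D * (X : ℝ) ^ (θ + ε / 2) * g) := hA1card
    _ ≤ ((1 + 2 / η) ^ m * (X : ℝ) ^ (ε / 2)) * (D * (X : ℝ) ^ (θ + ε / 2) * g) :=
        mul_le_mul_of_nonneg_right hLm (by positivity)
    _ = (1 + 2 / η) ^ m * D * (X : ℝ) ^ (θ + ε) * g := by
        have : (X : ℝ) ^ (θ + ε) = (X : ℝ) ^ (ε / 2) * (X : ℝ) ^ (θ + ε / 2) := by
          rw [← Real.rpow_add hXp]; congr 1; ring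
        rw [this]; ring

/-- exchange of `a` and `b` -/
def sw (t : ℕ × ℕ × ℕ) : ℕ × ℕ × ℕ := (t.2.1, t.1, t.2.2)

theorem num_sw (t : ℕ × ℕ × ℕ) (j : Fin 3) : num (sw t) j = num t (Equiv.swap 0 1 j) := by
  fin_cases j
  · show num (sw t) 0 = num t (Equiv.swap 0 1 0)
    rw [Equiv.swap_apply_left]
    simp [num, sw]
  · show num (sw t) 1 = num t (Equiv.swap 0 1 1)
    rw [Equiv.swap_apply_right]
    simp [num, sw]
  · show num (sw t) 2 = num t (Equiv.swap 0 1 2)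
    rw [Equiv.swap_apply_of_ne_of_ne (by decide) (by decide)]
    simp [num, sw]

/-- the count of a box -/
theorem count_box (hF : Basics) (lam θ : ℝ) (hθ : 0 ≤ θ) (h : CellsB lam θ) (ε : ℝ)
    (hε : 0 < ε) : ∃ C : ℝ, 0 < C ∧ ∀ X : ℕ, 1 ≤ X → ∀ Rb : Fin 3 → ℕ,
      ∀ p q : Fin 3, p ≠ q →
      ((BX lam X Rb).ncard : ℝ) ≤ C * (X : ℝ) ^ (θ + ε) *
        ((Rb p : ℝ) * Rb q) ^ ((1 : ℝ) / 2) := by
  classical
  obtain ⟨C, hC, hc⟩ := count_ord hF lam θ hθ h ε hε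
  refine ⟨2 * C, by positivity, ?_⟩
  intro X hX Rb p q hpq
  obtain ⟨A, hA⟩ : ∃ A, A = (BX_fin lam X Rb).toFinset := ⟨_, rfl⟩
  have hAm : ∀ t, t ∈ A ↔ t ∈ BX lam X Rb := fun t => by rw [hA, Set.Finite.mem_toFinset]
  rw [Set.ncard_eq_toFinset_card _ (BX_fin lam X Rb), ← hA]
  obtain ⟨A1, hA1⟩ : ∃ A1, A1 = A.filter (fun t => t.1 ≤ t.2.1) := ⟨_, rfl⟩
  obtain ⟨A2, hA2⟩ : ∃ A2, A2 = (A.filter (fun t => ¬ t.1 ≤ t.2.1)).image sw := ⟨_, rfl⟩
  have hswinj : Function.Injective sw := by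
    intro t t' h
    simp only [sw, Prod.mk.injEq] at h
    exact Prod.ext h.2.1 (Prod.ext h.1 h.2.2)
  have h1 := hc X hX Rb A1 (fun s hs => by
    rw [hA1, mem_filter] at hs
    exact ⟨(hAm s).1 hs.1, hs.2⟩) p q hpq
  have h2 := hc X hX (fun j => Rb (Equiv.swap 0 1 j)) A2 (fun s hs => by
    rw [hA2, mem_image] at hs
    obtain ⟨t, ht, rfl⟩ := hs
    rw [mem_filter] at ht
    obtain ⟨⟨g1, g2, g3, g4, g5, g6, g7⟩, g8, g9, g10⟩ := (hAm t).1 ht.1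
    refine ⟨⟨⟨g2, g1, g3, ?_, g5.symm, g7, g6⟩, g8, ?_, ?_⟩, ?_⟩
    · show t.2.1 + t.1 = t.2.2
      omega
    · show (rad (t.2.1 * t.1 * t.2.2) : ℝ) ≤ _
      rw [mul_comm t.2.1 t.1]
      exact g9
    · intro j
      rw [num_sw]
      exact g10 _
    · show t.2.1 ≤ t.1
      omega) (Equiv.swap 0 1 p) (Equiv.swap 0 1 q)
      (fun h => hpq ((Equiv.swap (0 : Fin 3) 1).injective h))
  simp only [Equiv.swap_apply_self] at h2
  have h3 : A.card = A1.card + A2.card := by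
    rw [hA1, hA2, card_image_of_injective _ hswinj, card_filter_add_card_filter_not]
  rw [h3]
  push_cast
  calc (A1.card : ℝ) + A2.card ≤ C * (X : ℝ) ^ (θ + ε) * ((Rb p : ℝ) * Rb q) ^ ((1 : ℝ) / 2) +
        C * (X : ℝ) ^ (θ + ε) * ((Rb p : ℝ) * Rb q) ^ ((1 : ℝ) / 2) := add_le_add h1 h2
    _ = _ := by ring

/-- for small `lam`: the bound in a box of radicals -/
theorem count_main (η : ℝ) (hη : 0 < η) : ∃ lam0 : ℝ, 0 < lam0 ∧ lam0 ≤ 1 ∧
    ∀ lam : ℝ, 0 < lam → lam ≤ lam0 → ∀ ε : ℝ, 0 < ε → ∃ C : ℝ, 0 < C ∧ ∀ X : ℕ, 1 ≤ X →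
      ∀ Rb : Fin 3 → ℕ, ∀ p q : Fin 3, p ≠ q →
      ((BX lam X Rb).ncard : ℝ) ≤ C * (X : ℝ) ^ (η * lam + ε) *
        ((Rb p : ℝ) * Rb q) ^ ((1 : ℝ) / 2) := by
  obtain ⟨lam0, h0, h1, h⟩ := cells_box basics stmtA4'
    (stmtJ_of (stmtPwr_of (stmtTwo_of stmtD') stmtFac)) η hη
  exact ⟨lam0, h0, h1, fun lam hl hl' ε hε =>
    count_box basics lam (η * lam) (by positivity) (h lam hl hl') ε hε⟩

end Pool.Agent.V7H6.Box
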