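import Mathlib
import Pool.Agent.V7H6.Box.Cells

/-!
# abc-triples in a box of radicals: heights between two powers of the bound for the radical
-/

set_option autoImplicit false

namespace Pool.Agent.V7H6.Box

open Finset Pool.Agent.H785R2.ABC Pool.Agent.H785R2.ABC.EC Pool.Agent.N745.T1

/-- auxiliary set: `c ≤ X ^ T` and `rad ≤ c ^ lam` -/
def S (T lam : ℝ) (X : ℕ) (Rb : Fin 3 → ℕ) : Set (ℕ × ℕ × ℕ) :=
  {t | IsABCTriple t.1 t.2.1 t.2.2 ∧ (t.2.2 : ℝ) ≤ (X : ℝ) ^ T ∧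
    (rad (t.1 * t.2.1 * t.2.2) : ℝ) ≤ (t.2.2 : ℝ) ^ lam ∧ ∀ j, rad (num t j) ≤ Rb j}

/-- auxiliary set: `c ≤ X ^ T`, `rad ≤ X` and `rad ≤ c ^ lam` -/
def P (T lam : ℝ) (X : ℕ) (Rb : Fin 3 → ℕ) : Set (ℕ × ℕ × ℕ) :=
  {t | IsABCTriple t.1 t.2.1 t.2.2 ∧ (t.2.2 : ℝ) ≤ (X : ℝ) ^ T ∧
    rad (t.1 * t.2.1 * t.2.2) ≤ X ∧
    (rad (t.1 * t.2.1 * t.2.2) : ℝ) ≤ (t.2.2 : ℝ) ^ lam ∧ ∀ j, rad (num t j) ≤ Rb j}

theorem fin_aux (Z : Set (ℕ × ℕ × ℕ)) (N : ℕ)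
    (h : ∀ t ∈ Z, IsABCTriple t.1 t.2.1 t.2.2 ∧ t.2.2 ≤ N) : Z.Finite := by
  refine Set.Finite.subset (Finset.finite_toSet
      ((Finset.range (N + 1)) ×ˢ (Finset.range (N + 1)) ×ˢ (Finset.range (N + 1)))) ?_
  rintro ⟨a, b, c⟩ ht
  obtain ⟨⟨h1, h2, h3, h4, h5⟩, h6⟩ := h _ ht
  simp only at h1 h2 h4 h6
  simp only [Finset.coe_product, Set.mem_prod, Finset.coe_range, Set.mem_Iio]
  omega

theorem S_fin (T lam : ℝ) (X : ℕ) (Rb : Fin 3 → ℕ) : (S T lam X Rb).Finite := by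
  refine fin_aux _ ⌊(X : ℝ) ^ T⌋₊ ?_
  rintro t ⟨h1, h2, h3⟩
  exact ⟨h1, Nat.le_floor h2⟩

theorem P_fin (T lam : ℝ) (X : ℕ) (Rb : Fin 3 → ℕ) : (P T lam X Rb).Finite := by
  refine fin_aux _ ⌊(X : ℝ) ^ T⌋₊ ?_
  rintro t ⟨h1, h2, h3⟩
  exact ⟨h1, Nat.le_floor h2⟩

/-- the bound in a box for small `lam` -/
def Main (lam0 η : ℝ) : Prop :=
  ∀ lam : ℝ, 0 < lam → lam ≤ lam0 → ∀ ε : ℝ, 0 < ε → ∃ C : ℝ, 0 < C ∧ ∀ X : ℕ, 1 ≤ X →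
      ∀ Rb : Fin 3 → ℕ, ∀ p q : Fin 3, p ≠ q →
      ((BX lam X Rb).ncard : ℝ) ≤ C * (X : ℝ) ^ (η * lam + ε) *
        ((Rb p : ℝ) * Rb q) ^ ((1 : ℝ) / 2)

theorem S_card {lam0 η : ℝ} (hη : 0 < η) (hη1 : η ≤ 2 / 3)
    (hlam0 : 0 < lam0) (hlam1 : lam0 ≤ 1) (hmain : Main lam0 η) (t : ℝ) (ht : 1 / lam0 ≤ t) :
    ∃ C : ℝ, 0 < C ∧ ∀ X : ℕ, 1 ≤ X → ∀ Rb : Fin 3 → ℕ, ∀ p q : Fin 3, p ≠ q →
      ((S (t + η) (1 / t) X Rb).ncard : ℝ) ≤ C * (X : ℝ) ^ (3 * η) *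
        ((Rb p : ℝ) * Rb q) ^ ((1 : ℝ) / 2) := by
  have ht1 : 1 ≤ t := by
    refine le_trans ?_ ht
    rw [le_div_iff₀ hlam0, one_mul]
    exact hlam1
  have ht0 : 0 < t := by linarith
  have hlam : 1 / t ≤ lam0 := by
    rw [div_le_iff₀ hlam0] at ht
    rw [div_le_iff₀ ht0]
    linarith
  have hd : 0 < t + η := by linarith
  obtain ⟨C, hC0, hC⟩ := hmain (1 / t) (by positivity) hlam (η / (t + η)) (by positivity)
  refine ⟨C, hC0, fun X hX Rb p q hpq => ?_⟩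
  have hX1 : (1 : ℝ) ≤ X := by exact_mod_cast hX
  have hX0 : (0 : ℝ) < X := by linarith
  set N : ℕ := ⌊(X : ℝ) ^ (t + η)⌋₊ with hN
  have hN1 : 1 ≤ N := Nat.le_floor (by
    rw [Nat.cast_one]
    exact Real.one_le_rpow hX1 hd.le)
  have hNX : (N : ℝ) ≤ (X : ℝ) ^ (t + η) := Nat.floor_le (by positivity)
  have h1 := hC N hN1 Rb p q hpq
  have hset : S (t + η) (1 / t) X Rb = BX (1 / t) N Rb := by
    ext u
    constructor
    · rintro ⟨a1, a2, a3, a4⟩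
      exact ⟨a1, Nat.le_floor a2, a3, a4⟩
    · rintro ⟨a1, a2, a3, a4⟩
      refine ⟨a1, le_trans ?_ hNX, a3, a4⟩
      exact_mod_cast a2
  rw [hset]
  refine h1.trans ?_
  have he : 0 ≤ η * (1 / t) + η / (t + η) := by positivity
  have h2 : (N : ℝ) ^ (η * (1 / t) + η / (t + η)) ≤
      ((X : ℝ) ^ (t + η)) ^ (η * (1 / t) + η / (t + η)) :=
    Real.rpow_le_rpow (Nat.cast_nonneg _) hNX he
  rw [← Real.rpow_mul hX0.le] at h2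
  have h3 : (t + η) * (η * (1 / t) + η / (t + η)) ≤ 3 * η := by
    have e1 : (t + η) * (η * (1 / t) + η / (t + η)) =
        η + η * (η * (1 / t)) + η := by
      field_simp
    rw [e1]
    have e2 : η * (1 / t) ≤ 1 := by
      have e3 : 1 / t ≤ 1 := hlam.trans hlam1
      have e4 : 0 < 1 / t := by positivity
      nlinarith
    have e5 : η * (η * (1 / t)) ≤ η * 1 := mul_le_mul_of_nonneg_left e2 hη.le
    linarith
  have h4 : (X : ℝ) ^ ((t + η) * (η * (1 / t) + η / (t + η))) ≤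
      (X : ℝ) ^ (3 * η : ℝ) := Real.rpow_le_rpow_of_exponent_le hX1 h3
  have h6 := h2.trans h4
  gcongr

theorem P_card {lam0 η : ℝ} (hη : 0 < η) (hη1 : η ≤ 2 / 3)
    (hlam0 : 0 < lam0) (hlam1 : lam0 ≤ 1) (hmain : Main lam0 η) {M : ℕ} (hM : 1 / lam0 ≤ M)
    (J : ℕ) :
    ∃ C : ℝ, 0 < C ∧ ∀ X : ℕ, 1 ≤ X → ∀ Rb : Fin 3 → ℕ, ∀ p q : Fin 3, p ≠ q →
      ((P (M + J * η) (1 / M) X Rb).ncard : ℝ) ≤ C * (X : ℝ) ^ (3 * η) *
        ((Rb p : ℝ) * Rb q) ^ ((1 : ℝ) / 2) := by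
  induction J with
  | zero =>
    obtain ⟨C, hC0, hC⟩ := S_card hη hη1 hlam0 hlam1 hmain M hM
    refine ⟨C, hC0, fun X hX Rb p q hpq => le_trans ?_ (hC X hX Rb p q hpq)⟩
    have hX1 : (1 : ℝ) ≤ X := by exact_mod_cast hX
    have hsub : P (M + (0 : ℕ) * η) (1 / M) X Rb ⊆ S (M + η) (1 / M) X Rb := by
      rintro t ⟨h1, h2, h3, h4, h5⟩
      refine ⟨h1, h2.trans (Real.rpow_le_rpow_of_exponent_le hX1 ?_), h4, h5⟩
      rw [Nat.cast_zero, zero_mul]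
      linarith
    exact_mod_cast Set.ncard_le_ncard hsub (S_fin _ _ _ _)
  | succ J ih =>
    obtain ⟨C, hC0, hC⟩ := ih
    have ht : 1 / lam0 ≤ M + J * η := by
      have : 0 ≤ (J : ℝ) * η := by positivity
      linarith
    obtain ⟨C', hC0', hC'⟩ := S_card hη hη1 hlam0 hlam1 hmain (M + J * η) ht
    refine ⟨C + C', by positivity, fun X hX Rb p q hpq => ?_⟩
    have hX1 : (1 : ℝ) ≤ X := by exact_mod_cast hX
    have hX0 : (0 : ℝ) < X := by linarith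
    set t : ℝ := M + J * η with htdef
    have ht0 : 0 < t := lt_of_lt_of_le (by positivity) ht
    have hsub : P (M + ((J + 1 : ℕ) : ℝ) * η) (1 / M) X Rb ⊆
        P t (1 / M) X Rb ∪ S (t + η) (1 / t) X Rb := by
      rintro u ⟨h1, h2, h3, h4, h5⟩
      rcases le_or_gt ((u.2.2 : ℝ)) ((X : ℝ) ^ t) with h | h
      · exact Or.inl ⟨h1, h, h3, h4, h5⟩
      · right
        refine ⟨h1, h2.trans (le_of_eq ?_), ?_, h5⟩
        · congr 1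
          rw [htdef]
          push_cast
          ring
        · have h5 : ((rad (u.1 * u.2.1 * u.2.2) : ℕ) : ℝ) ≤ X := by exact_mod_cast h3
          refine h5.trans ?_
          have h6 : ((X : ℝ) ^ t) ^ (1 / t) ≤ (u.2.2 : ℝ) ^ (1 / t) :=
            Real.rpow_le_rpow (by positivity) h.le (by positivity)
          rw [← Real.rpow_mul hX0.le, mul_one_div_cancel ht0.ne', Real.rpow_one] at h6
          exact h6
    have h7 : ((P (M + ((J + 1 : ℕ) : ℝ) * η) (1 / M) X Rb).ncard : ℝ) ≤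
        ((P t (1 / M) X Rb).ncard : ℝ) + ((S (t + η) (1 / t) X Rb).ncard : ℝ) := by
      have := (Set.ncard_le_ncard hsub ((P_fin _ _ _ _).union (S_fin _ _ _ _))).trans
        (Set.ncard_union_le _ _)
      exact_mod_cast this
    refine h7.trans ?_
    rw [add_mul, add_mul]
    exact add_le_add (hC X hX Rb p q hpq) (hC' X hX Rb p q hpq)

/-- **the bound in a box** -/
theorem box_bound (ε : ℝ) (hε : 0 < ε) : ∃ M : ℕ, 1 ≤ M ∧ ∀ k : ℕ, ∃ C : ℝ, 0 < C ∧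
    ∀ X : ℕ, 1 ≤ X → ∀ Rb : Fin 3 → ℕ, ∀ Z : Set (ℕ × ℕ × ℕ),
      (∀ t ∈ Z, IsABCTriple t.1 t.2.1 t.2.2 ∧ rad (t.1 * t.2.1 * t.2.2) ≤ X ∧
        rad (t.1 * t.2.1 * t.2.2) ^ M ≤ t.2.2 ∧ t.2.2 ≤ X ^ k ∧ ∀ j, rad (num t j) ≤ Rb j) →
      Z.Finite ∧ ∀ p q : Fin 3, p ≠ q →
      (Z.ncard : ℝ) ≤ C * (X : ℝ) ^ ε * ((Rb p : ℝ) * Rb q) ^ ((1 : ℝ) / 2) := by
  obtain ⟨η, hη, hη1, hη2⟩ : ∃ η : ℝ, 0 < η ∧ η ≤ 2 / 3 ∧ 3 * η ≤ ε :=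
    ⟨min (2 / 3) (ε / 3), lt_min (by norm_num) (by positivity), min_le_left _ _, by
      have := min_le_right (2 / 3 : ℝ) (ε / 3)
      linarith⟩
  obtain ⟨lam0, h0, h1, hmain⟩ := count_main η hη
  obtain ⟨M, hM⟩ := exists_nat_ge (1 / lam0)
  have hM0 : 0 < M := by
    have : (0 : ℝ) < M := lt_of_lt_of_le (by positivity) hM
    exact_mod_cast this
  refine ⟨M, hM0, fun k => ?_⟩
  obtain ⟨J, hJ⟩ := exists_nat_ge ((k : ℝ) / η)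
  obtain ⟨C, hC0, hC⟩ := P_card hη hη1 h0 h1 hmain hM J
  refine ⟨C, hC0, fun X hX Rb Z hZ => ?_⟩
  have hX1 : (1 : ℝ) ≤ X := by exact_mod_cast hX
  have hsub : Z ⊆ P (M + J * η) (1 / M) X Rb := by
    rintro t ht
    obtain ⟨h2, h3, h4, h5, h6⟩ := hZ t ht
    refine ⟨h2, ?_, h3, ?_, h6⟩
    · have h1 : ((t.2.2 : ℕ) : ℝ) ≤ (X : ℝ) ^ k := by exact_mod_cast h5
      refine h1.trans ?_
      rw [← Real.rpow_natCast]
      refine Real.rpow_le_rpow_of_exponent_le hX1 ?_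
      rw [div_le_iff₀ (by positivity)] at hJ
      have : (0 : ℝ) ≤ M := Nat.cast_nonneg _
      linarith
    · have h0 : (0 : ℝ) ≤ (rad (t.1 * t.2.1 * t.2.2) : ℝ) := Nat.cast_nonneg _
      have hMr : (0 : ℝ) < M := by exact_mod_cast hM0
      have hr' : (rad (t.1 * t.2.1 * t.2.2) : ℝ) ^ M ≤ ((t.2.2 : ℕ) : ℝ) := by
        exact_mod_cast h4
      calc (rad (t.1 * t.2.1 * t.2.2) : ℝ)
          = ((rad (t.1 * t.2.1 * t.2.2) : ℝ) ^ M) ^ (1 / (M : ℝ)) := by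
            rw [← Real.rpow_natCast, ← Real.rpow_mul h0, mul_one_div_cancel hMr.ne',
              Real.rpow_one]
        _ ≤ _ := Real.rpow_le_rpow (by positivity) hr' (by positivity)
  refine ⟨(P_fin _ _ _ _).subset hsub, fun p q hpq => ?_⟩
  have h4 : (Z.ncard : ℝ) ≤ ((P (M + J * η) (1 / M) X Rb).ncard : ℝ) := by
    exact_mod_cast Set.ncard_le_ncard hsub (P_fin _ _ _ _)
  refine (h4.trans (hC X hX Rb p q hpq)).trans ?_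
  have h5 : (X : ℝ) ^ (3 * η) ≤ (X : ℝ) ^ ε := Real.rpow_le_rpow_of_exponent_le hX1 hη2
  gcongr

end Pool.Agent.V7H6.Box
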