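import Mathlib
import Pool.Agent.V7H6.Box.Fin

/-!
# Consequences of the bound in a box of radicals
-/

set_option autoImplicit false

namespace Pool.Agent.V7H6.Box

open Finset
open Pool.Agent.H785R2.ABC (IsABCTriple rad num)

/-- the radical: product of the distinct primes dividing `n` -/
def radical (n : ℕ) : ℕ := ∏ p ∈ n.primeFactors, p

/-- the abc-triples `(a, b, c)`: positive integers, `a + b = c`, `gcd (a, b) = 1` -/
def IsTriple (t : ℕ × ℕ × ℕ) : Prop :=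
  0 < t.1 ∧ 0 < t.2.1 ∧ Nat.Coprime t.1 t.2.1 ∧ t.1 + t.2.1 = t.2.2

/-- the radical of `abc` -/
def rad3 (t : ℕ × ℕ × ℕ) : ℕ := radical (t.1 * t.2.1 * t.2.2)

/-- the abc-triples with `rad (abc) ≤ X` and `rad (abc) ^ M ≤ c ≤ X ^ k` -/
def Large (M k X : ℕ) : Set (ℕ × ℕ × ℕ) :=
  {t | IsTriple t ∧ rad3 t ≤ X ∧ rad3 t ^ M ≤ t.2.2 ∧ t.2.2 ≤ X ^ k}

/-- those with `rad a ≤ A`, `rad b ≤ B` and `rad c ≤ C` -/
def Box (M k X A B C : ℕ) : Set (ℕ × ℕ × ℕ) :=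
  {t | t ∈ Large M k X ∧ radical t.1 ≤ A ∧ radical t.2.1 ≤ B ∧ radical t.2.2 ≤ C}

/-- those with a member of radical at most `A` -/
def Member (M k X A : ℕ) : Set (ℕ × ℕ × ℕ) :=
  {t | t ∈ Large M k X ∧ (radical t.1 ≤ A ∨ radical t.2.1 ≤ A ∨ radical t.2.2 ≤ A)}

/-- the positive integers `n` with `rad (n (n + 1)) ≤ X` and
`rad (n (n + 1)) ^ M ≤ n + 1 ≤ X ^ k` -/
def Consecutive (M k X : ℕ) : Set ℕ :=
  {n | 0 < n ∧ radical (n * (n + 1)) ≤ X ∧ radical (n * (n + 1)) ^ M ≤ n + 1 ∧ n + 1 ≤ X ^ k}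

/-- `n` is `m`-full: `p ∣ n` implies `p ^ m ∣ n` -/
def Full (m n : ℕ) : Prop := ∀ p : ℕ, p.Prime → p ∣ n → p ^ m ∣ n

/-- the abc-triples with `c ≤ H` and `a`, `b`, `c` respectively `p`-full, `q`-full, `r`-full -/
def FullTriples (p q r H : ℕ) : Set (ℕ × ℕ × ℕ) :=
  {t | IsTriple t ∧ Full p t.1 ∧ Full q t.2.1 ∧ Full r t.2.2 ∧ t.2.2 ≤ H}

/-- the positive integers `n ≤ H` with `n` and `n + 1` both `m`-full -/
def FullPairs (m H : ℕ) : Set ℕ := {n | 0 < n ∧ n ≤ H ∧ Full m n ∧ Full m (n + 1)}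

theorem radical_pos (n : ℕ) : 1 ≤ radical n :=
  Nat.one_le_iff_ne_zero.2
    (Finset.prod_ne_zero_iff.2 fun p hp => (Nat.prime_of_mem_primeFactors hp).ne_zero)

theorem toABC {t : ℕ × ℕ × ℕ} (h : IsTriple t) : IsABCTriple t.1 t.2.1 t.2.2 := by
  obtain ⟨a, b, c⟩ := t
  obtain ⟨ha, hb, hab, habc⟩ := h
  simp only at ha hb hab habc ⊢
  subst habc
  refine ⟨ha, hb, Nat.add_pos_left ha b, rfl, hab, ?_, ?_⟩
  · simpa using hab
  · simpa using hab.symm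

/-- the radicals of the members -/
theorem rad3_eq {t : ℕ × ℕ × ℕ} (h : IsTriple t) :
    radical t.1 * radical t.2.1 * radical t.2.2 = rad3 t := by
  have h1 := Pool.Agent.N745.T1.rad_abc (toABC h)
  exact h1

/-- all that is needed from the library: the bound for a set of triples -/
def Bd (ε : ℝ) (M k : ℕ) (C : ℝ) : Prop :=
    ∀ X : ℕ, 1 ≤ X → ∀ A1 A2 A3 : ℕ, ∀ Z : Set (ℕ × ℕ × ℕ), Z ⊆ Box M k X A1 A2 A3 →
      Z.Finite ∧ (Z.ncard : ℝ) ≤ C * (X : ℝ) ^ ε *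
        Real.sqrt ((min (A1 * A2) (min (A2 * A3) (A3 * A1)) : ℕ) : ℝ)

theorem exists_bd (ε : ℝ) (hε : 0 < ε) : ∃ M : ℕ, 1 ≤ M ∧ ∀ k : ℕ, ∃ C : ℝ, 0 < C ∧
    Bd ε M k C := by
  obtain ⟨M, hM, h⟩ := Pool.Agent.V7H6.Box.box_bound ε hε
  refine ⟨M, hM, fun k => ?_⟩
  obtain ⟨C, hC0, hC⟩ := h k
  refine ⟨C, hC0, fun X hX A1 A2 A3 Z hZ => ?_⟩
  obtain ⟨h1, h2⟩ := hC X hX ![A1, A2, A3] Z (fun t ht => by
    obtain ⟨⟨a1, a2, a3, a4⟩, b1, b2, b3⟩ := hZ ht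
    refine ⟨toABC a1, a2, a3, a4, fun j => ?_⟩
    fin_cases j
    · exact b1
    · exact b2
    · exact b3)
  refine ⟨h1, ?_⟩
  have e1 := h2 0 1 (by decide)
  have e2 := h2 1 2 (by decide)
  have e3 := h2 2 0 (by decide)
  simp only [Matrix.cons_val_zero, Matrix.cons_val_one, Matrix.cons_val, ← Real.sqrt_eq_rpow]
    at e1 e2 e3
  rcases min_choice (A1 * A2) (min (A2 * A3) (A3 * A1)) with hm | hm
  · rw [hm]; push_cast; exact e1
  · rcases min_choice (A2 * A3) (A3 * A1) with hm' | hm'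
    · rw [hm, hm']; push_cast; exact e2
    · rw [hm, hm']; push_cast; exact e3

/-- monotonicity in `M` -/
theorem box_mono {M M' k X A B C : ℕ} (h : M ≤ M') : Box M' k X A B C ⊆ Box M k X A B C := by
  rintro t ⟨⟨a1, a2, a3, a4⟩, b1, b2, b3⟩
  exact ⟨⟨a1, a2, (Nat.pow_le_pow_right (radical_pos _) h).trans a3, a4⟩, b1, b2, b3⟩

/-- the elementary inequality for the part on a member of small radical -/
theorem min_bound {x y z A X : ℕ} (hxyz : x * y * z ≤ X) (h : x ≤ A ∨ y ≤ A ∨ z ≤ A) :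
    (min (x * y) (min (y * z) (z * x))) ^ 2 ≤ A * X := by
  obtain ⟨m, hm⟩ : ∃ m, m = min (x * y) (min (y * z) (z * x)) := ⟨_, rfl⟩
  rw [← hm]
  have h1 : m ≤ x * y := by rw [hm]; exact min_le_left _ _
  have h2 : m ≤ y * z := by rw [hm]; exact (min_le_right _ _).trans (min_le_left _ _)
  have h3 : m ≤ z * x := by rw [hm]; exact (min_le_right _ _).trans (min_le_right _ _)
  rw [pow_two]
  rcases h with h | h | h
  · calc m * m ≤ (x * y) * (z * x) := Nat.mul_le_mul h1 h3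
      _ = x * (x * y * z) := by ring
      _ ≤ A * X := Nat.mul_le_mul h hxyz
  · calc m * m ≤ (x * y) * (y * z) := Nat.mul_le_mul h1 h2
      _ = y * (x * y * z) := by ring
      _ ≤ A * X := Nat.mul_le_mul h hxyz
  · calc m * m ≤ (y * z) * (z * x) := Nat.mul_le_mul h2 h3
      _ = z * (x * y * z) := by ring
      _ ≤ A * X := Nat.mul_le_mul h hxyz

/-- **triples with a member of small radical** -/
theorem member_bound {ε C : ℝ} {M k : ℕ} (hε : 0 < ε) (hC : 0 < C) (hb : Bd ε M k C) :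
    ∃ K : ℝ, 0 < K ∧ ∀ X A : ℕ, 1 ≤ X → (Member M k X A).Finite ∧
      ((Member M k X A).ncard : ℝ) ≤ K * (X : ℝ) ^ (2 * ε) * ((A * X : ℕ) : ℝ) ^ ((1 : ℝ) / 4) := by
  classical
  refine ⟨(1 + 2 / (ε / 3)) ^ 3 * (C * 2), by positivity, fun X A hX => ?_⟩
  have hX1 : (1 : ℝ) ≤ X := by exact_mod_cast hX
  have hX0 : (0 : ℝ) < X := by linarith
  obtain ⟨L, hL⟩ : ∃ L, L = Nat.log 2 X := ⟨_, rfl⟩
  obtain ⟨lg, hlg⟩ : ∃ lg : ℕ × ℕ × ℕ → ℕ × ℕ × ℕ, lg = fun t =>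
    (Nat.log 2 (radical t.1), Nat.log 2 (radical t.2.1), Nat.log 2 (radical t.2.2)) := ⟨_, rfl⟩
  obtain ⟨I, hI⟩ : ∃ I, I = (range (L + 1)) ×ˢ ((range (L + 1)) ×ˢ (range (L + 1))) := ⟨_, rfl⟩
  obtain ⟨Z, hZ⟩ : ∃ Z : ℕ × ℕ × ℕ → Set (ℕ × ℕ × ℕ), Z = fun i =>
    {t | t ∈ Member M k X A ∧ lg t = i} := ⟨_, rfl⟩
  have hlog : ∀ n : ℕ, 2 ^ Nat.log 2 (radical n) ≤ radical n ∧
      radical n ≤ 2 * 2 ^ Nat.log 2 (radical n) := fun n => by
    have h1 := Nat.pow_log_le_self 2 (by have := radical_pos n; omega : radical n ≠ 0)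
    have h2 := Nat.lt_pow_succ_log_self (by norm_num : 1 < 2) (radical n)
    rw [pow_succ] at h2
    omega
  have hcov : Member M k X A ⊆ ⋃ i ∈ I, Z i := by
    intro t ht
    rw [Set.mem_iUnion₂]
    refine ⟨lg t, ?_, by rw [hZ]; exact ⟨ht, rfl⟩⟩
    obtain ⟨⟨a1, a2, a3, a4⟩, -⟩ := ht
    rw [← rad3_eq a1] at a2
    have g1 := radical_pos t.1
    have g2 := radical_pos t.2.1
    have g3 := radical_pos t.2.2
    rw [hI, hlg]
    simp only [mem_product, mem_range, Nat.lt_succ_iff]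
    rw [hL]
    refine ⟨Nat.log_mono_right (le_trans ?_ a2), Nat.log_mono_right (le_trans ?_ a2),
      Nat.log_mono_right (le_trans ?_ a2)⟩
    · calc radical t.1 = radical t.1 * 1 * 1 := by ring
        _ ≤ _ := Nat.mul_le_mul (Nat.mul_le_mul le_rfl g2) g3
    · calc radical t.2.1 = 1 * radical t.2.1 * 1 := by ring
        _ ≤ _ := Nat.mul_le_mul (Nat.mul_le_mul g1 le_rfl) g3
    · calc radical t.2.2 = 1 * 1 * radical t.2.2 := by ring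
        _ ≤ _ := Nat.mul_le_mul (Nat.mul_le_mul g1 g2) le_rfl
  obtain ⟨W, hW⟩ : ∃ W, W = C * (X : ℝ) ^ ε * (2 * ((A * X : ℕ) : ℝ) ^ ((1 : ℝ) / 4)) := ⟨_, rfl⟩
  have hW0 : 0 ≤ W := by rw [hW]; positivity
  have hZb : ∀ i, (Z i).Finite ∧ ((Z i).ncard : ℝ) ≤ W := by
    rintro ⟨i, j, l⟩
    rcases (Z (i, j, l)).eq_empty_or_nonempty with h0 | ⟨t, ht⟩
    · rw [h0]
      refine ⟨Set.finite_empty, ?_⟩
      rw [Set.ncard_empty, Nat.cast_zero]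
      exact hW0
    have hm : ∀ t ∈ Z (i, j, l), t ∈ Member M k X A ∧ Nat.log 2 (radical t.1) = i ∧
        Nat.log 2 (radical t.2.1) = j ∧ Nat.log 2 (radical t.2.2) = l := by
      intro t ht
      rw [hZ] at ht
      obtain ⟨h1, h2⟩ := ht
      rw [hlg] at h2
      simp only [Prod.mk.injEq] at h2
      exact ⟨h1, h2⟩
    have hsub : Z (i, j, l) ⊆ Box M k X (2 * 2 ^ i) (2 * 2 ^ j) (2 * 2 ^ l) := by
      intro t ht
      obtain ⟨h1, h2, h3, h4⟩ := hm t ht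
      refine ⟨h1.1, ?_, ?_, ?_⟩
      · rw [← h2]; exact (hlog _).2
      · rw [← h3]; exact (hlog _).2
      · rw [← h4]; exact (hlog _).2
    obtain ⟨b1, b2⟩ := hb X hX _ _ _ _ hsub
    refine ⟨b1, b2.trans ?_⟩
    rw [hW]
    apply mul_le_mul_of_nonneg_left _ (by positivity)
    obtain ⟨⟨⟨a1, a2, a3, a4⟩, a5⟩, h2, h3, h4⟩ := hm t ht
    rw [← rad3_eq a1] at a2
    have g1 := (hlog t.1).1
    have g2 := (hlog t.2.1).1
    have g3 := (hlog t.2.2).1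
    rw [h2] at g1
    rw [h3] at g2
    rw [h4] at g3
    have e1 : 2 ^ i * 2 ^ j * 2 ^ l ≤ X :=
      (Nat.mul_le_mul (Nat.mul_le_mul g1 g2) g3).trans a2
    have e2 : 2 ^ i ≤ A ∨ 2 ^ j ≤ A ∨ 2 ^ l ≤ A := by
      rcases a5 with h | h | h
      · exact Or.inl (g1.trans h)
      · exact Or.inr (Or.inl (g2.trans h))
      · exact Or.inr (Or.inr (g3.trans h))
    have e3 := min_bound e1 e2
    obtain ⟨m, hmd⟩ : ∃ m, m = min (2 ^ i * 2 ^ j) (min (2 ^ j * 2 ^ l) (2 ^ l * 2 ^ i)) := ⟨_, rfl⟩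
    rw [← hmd] at e3
    have e4 : min (2 * 2 ^ i * (2 * 2 ^ j)) (min (2 * 2 ^ j * (2 * 2 ^ l))
        (2 * 2 ^ l * (2 * 2 ^ i))) ≤ 4 * m := by
      rw [hmd]
      rcases min_choice (2 ^ i * 2 ^ j) (min (2 ^ j * 2 ^ l) (2 ^ l * 2 ^ i)) with h | h
      · rw [h]
        refine (min_le_left _ _).trans (le_of_eq (by ring))
      · rw [h]
        rcases min_choice (2 ^ j * 2 ^ l) (2 ^ l * 2 ^ i) with h' | h'
        · rw [h']
          exact ((min_le_right _ _).trans (min_le_left _ _)).trans (le_of_eq (by ring))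
        · rw [h']
          exact ((min_le_right _ _).trans (min_le_right _ _)).trans (le_of_eq (by ring))
    have e5 : Real.sqrt ((min (2 * 2 ^ i * (2 * 2 ^ j)) (min (2 * 2 ^ j * (2 * 2 ^ l))
        (2 * 2 ^ l * (2 * 2 ^ i))) : ℕ) : ℝ) ≤ Real.sqrt ((4 * m : ℕ) : ℝ) :=
      Real.sqrt_le_sqrt (by exact_mod_cast e4)
    refine e5.trans ?_
    have e6 : Real.sqrt ((4 * m : ℕ) : ℝ) = 2 * Real.sqrt (m : ℝ) := by
      push_cast
      rw [Real.sqrt_mul (by norm_num), show (4 : ℝ) = 2 ^ 2 by norm_num,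
        Real.sqrt_sq (by norm_num)]
    rw [e6]
    apply mul_le_mul_of_nonneg_left _ (by norm_num)
    have e7 : ((m : ℝ)) ^ 2 ≤ ((A * X : ℕ) : ℝ) := by exact_mod_cast e3
    calc Real.sqrt (m : ℝ) = (((m : ℝ)) ^ 2) ^ ((1 : ℝ) / 4) := by
          rw [Real.sqrt_eq_rpow, ← Real.rpow_natCast, ← Real.rpow_mul (Nat.cast_nonneg _)]
          norm_num
      _ ≤ _ := Real.rpow_le_rpow (by positivity) e7 (by norm_num)
  have hfin : (⋃ i ∈ I, Z i).Finite := Set.Finite.biUnion (Finset.finite_toSet I)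
    (fun i _ => (hZb i).1)
  refine ⟨hfin.subset hcov, ?_⟩
  have h1 : ((Member M k X A).ncard : ℝ) ≤ ∑ i ∈ I, ((Z i).ncard : ℝ) := by
    have h2 := (Set.ncard_le_ncard hcov hfin).trans (Finset.set_ncard_biUnion_le I Z)
    exact_mod_cast h2
  refine h1.trans ?_
  have h2 : ∑ i ∈ I, ((Z i).ncard : ℝ) ≤ (I.card : ℝ) * W := by
    rw [← nsmul_eq_mul, ← Finset.sum_const]
    exact Finset.sum_le_sum fun i _ => (hZb i).2
  refine h2.trans ?_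
  have h3 : (I.card : ℝ) = ((L + 1 : ℕ) : ℝ) ^ 3 := by
    rw [hI, card_product, card_product, card_range]
    push_cast
    ring
  have h4 : ((L + 1 : ℕ) : ℝ) ^ 3 ≤ (1 + 2 / (ε / 3)) ^ 3 * (X : ℝ) ^ ε := by
    have h5 := Pool.Agent.H785R2.ABC.Fin1.log_le X hX (ε / 3) (by positivity)
    rw [← hL] at h5
    calc ((L + 1 : ℕ) : ℝ) ^ 3 ≤ ((1 + 2 / (ε / 3)) * (X : ℝ) ^ (ε / 3)) ^ 3 :=
          pow_le_pow_left₀ (Nat.cast_nonneg _) h5 3
      _ = (1 + 2 / (ε / 3)) ^ 3 * (X : ℝ) ^ ε := by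
          rw [mul_pow, ← Real.rpow_natCast ((X : ℝ) ^ (ε / 3)), ← Real.rpow_mul hX0.le]
          congr 2
          push_cast
          ring
  rw [h3]
  calc ((L + 1 : ℕ) : ℝ) ^ 3 * W ≤ ((1 + 2 / (ε / 3)) ^ 3 * (X : ℝ) ^ ε) * W :=
        mul_le_mul_of_nonneg_right h4 hW0
    _ = (1 + 2 / (ε / 3)) ^ 3 * (C * 2) * ((X : ℝ) ^ ε * (X : ℝ) ^ ε) *
        ((A * X : ℕ) : ℝ) ^ ((1 : ℝ) / 4) := by rw [hW]; ring
    _ = _ := by
        rw [← Real.rpow_add hX0]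
        congr 3
        ring

theorem one_triple {n : ℕ} (hn : 0 < n) : IsTriple (1, n, n + 1) :=
  ⟨one_pos, hn, Nat.coprime_one_left n, by show 1 + n = n + 1; omega⟩

theorem rad3_one (n : ℕ) : rad3 (1, n, n + 1) = radical (n * (n + 1)) := by
  show radical (1 * n * (n + 1)) = _
  rw [one_mul]

theorem radical_one : radical 1 = 1 := by simp [radical]

/-- **consecutive integers** -/
theorem consecutive_bound {ε K : ℝ} {M k : ℕ} (h : ∀ X A : ℕ, 1 ≤ X → (Member M k X A).Finite ∧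
      ((Member M k X A).ncard : ℝ) ≤ K * (X : ℝ) ^ ε * ((A * X : ℕ) : ℝ) ^ ((1 : ℝ) / 4))
    (X : ℕ) (hX : 1 ≤ X) : (Consecutive M k X).Finite ∧
      ((Consecutive M k X).ncard : ℝ) ≤ K * (X : ℝ) ^ (1 / 4 + ε) := by
  obtain ⟨h1, h2⟩ := h X 1 hX
  have hX0 : (0 : ℝ) < X := by exact_mod_cast hX
  obtain ⟨f, hf⟩ : ∃ f : ℕ → ℕ × ℕ × ℕ, f = fun n => (1, n, n + 1) := ⟨_, rfl⟩
  have hinj : Set.InjOn f (Consecutive M k X) := by
    intro n _ m _ h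
    rw [hf] at h
    simp only [Prod.mk.injEq] at h
    exact h.2.1
  have hmaps : Set.MapsTo f (Consecutive M k X) (Member M k X 1) := by
    rintro n ⟨a1, a2, a3, a4⟩
    rw [hf]
    refine ⟨⟨one_triple a1, ?_, ?_, a4⟩, Or.inl ?_⟩
    · rw [rad3_one]; exact a2
    · rw [rad3_one]; exact a3
    · show radical 1 ≤ 1
      rw [radical_one]
  refine ⟨Set.Finite.of_injOn hmaps hinj h1, ?_⟩
  have h3 := Set.ncard_le_ncard_of_injOn f hmaps hinj h1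
  have h4 : ((Consecutive M k X).ncard : ℝ) ≤ ((Member M k X 1).ncard : ℝ) := by
    exact_mod_cast h3
  refine (h4.trans h2).trans (le_of_eq ?_)
  rw [one_mul, mul_assoc, ← Real.rpow_add hX0]
  congr 2
  ring

/-- the radical of a full number -/
theorem full_rad {m n : ℕ} (hn : 0 < n) (h : Full m n) : radical n ^ m ≤ n := by
  have h1 : radical n ^ m ∣ n := by
    rw [radical, ← Finset.prod_pow]
    refine Finset.prod_dvd_of_isRelPrime ?_ ?_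
    · intro p hp q hq hpq
      exact Nat.coprime_iff_isRelPrime.1 (Nat.Coprime.pow _ _
        ((Nat.coprime_primes (Nat.prime_of_mem_primeFactors hp)
          (Nat.prime_of_mem_primeFactors hq)).2 hpq))
    · intro p hp
      exact h p (Nat.prime_of_mem_primeFactors hp) (Nat.dvd_of_mem_primeFactors hp)
  exact Nat.le_of_dvd hn h1

/-- the ceiling of a root -/
theorem root_bounds {p H : ℕ} (hp : 0 < p) (hH : 1 ≤ H) :
    H ≤ ⌈(H : ℝ) ^ (1 / (p : ℝ))⌉₊ ^ p ∧ 1 ≤ ⌈(H : ℝ) ^ (1 / (p : ℝ))⌉₊ ∧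
      (⌈(H : ℝ) ^ (1 / (p : ℝ))⌉₊ : ℝ) ≤ 2 * (H : ℝ) ^ (1 / (p : ℝ)) ∧
      ∀ x n : ℕ, x ^ p ≤ n → n ≤ H → x ≤ ⌈(H : ℝ) ^ (1 / (p : ℝ))⌉₊ := by
  have hH1 : (1 : ℝ) ≤ H := by exact_mod_cast hH
  have hp0 : (0 : ℝ) < p := by exact_mod_cast hp
  have h1 : (1 : ℝ) ≤ (H : ℝ) ^ (1 / (p : ℝ)) := Real.one_le_rpow hH1 (by positivity)
  have h2 : (H : ℝ) ^ (1 / (p : ℝ)) ≤ ⌈(H : ℝ) ^ (1 / (p : ℝ))⌉₊ := Nat.le_ceil _
  have h3 : (⌈(H : ℝ) ^ (1 / (p : ℝ))⌉₊ : ℝ) < (H : ℝ) ^ (1 / (p : ℝ)) + 1 :=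
    Nat.ceil_lt_add_one (by positivity)
  have h4 : ((H : ℝ) ^ (1 / (p : ℝ))) ^ p = H := by
    rw [← Real.rpow_natCast, ← Real.rpow_mul (by linarith), one_div_mul_cancel hp0.ne',
      Real.rpow_one]
  refine ⟨?_, ?_, by linarith, ?_⟩
  · have h5 : (H : ℝ) ≤ (⌈(H : ℝ) ^ (1 / (p : ℝ))⌉₊ : ℝ) ^ p := by
      calc (H : ℝ) = ((H : ℝ) ^ (1 / (p : ℝ))) ^ p := h4.symm
        _ ≤ _ := pow_le_pow_left₀ (by linarith) h2 p
    exact_mod_cast h5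
  · exact_mod_cast h1.trans h2
  · intro x n hx hn
    have h5 : ((x : ℝ)) ^ p ≤ ((H : ℝ) ^ (1 / (p : ℝ))) ^ p := by
      rw [h4]
      exact_mod_cast hx.trans hn
    have h6 : (x : ℝ) ≤ (H : ℝ) ^ (1 / (p : ℝ)) :=
      le_of_pow_le_pow_left₀ hp.ne' (by linarith) h5
    exact_mod_cast h6.trans h2

/-- the radical of a triple of full numbers -/
theorem cube_le {x y z M c p q r : ℕ} (hx : 1 ≤ x) (hy : 1 ≤ y) (hz : 1 ≤ z) (hp : 3 * M ≤ p)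
    (hq : 3 * M ≤ q) (hr : 3 * M ≤ r) (h1 : x ^ p ≤ c) (h2 : y ^ q ≤ c) (h3 : z ^ r ≤ c) :
    (x * y * z) ^ M ≤ c := by
  have e1 : x ^ (3 * M) ≤ c := (Nat.pow_le_pow_right hx hp).trans h1
  have e2 : y ^ (3 * M) ≤ c := (Nat.pow_le_pow_right hy hq).trans h2
  have e3 : z ^ (3 * M) ≤ c := (Nat.pow_le_pow_right hz hr).trans h3
  have e4 : ((x * y * z) ^ M) ^ 3 ≤ c ^ 3 := by
    calc ((x * y * z) ^ M) ^ 3 = x ^ (3 * M) * y ^ (3 * M) * z ^ (3 * M) := by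
          rw [← pow_mul, mul_pow, mul_pow, mul_comm M 3]
      _ ≤ c * c * c := Nat.mul_le_mul (Nat.mul_le_mul e1 e2) e3
      _ = c ^ 3 := by ring
  exact le_of_pow_le_pow_left₀ (by norm_num) (Nat.zero_le _) e4

/-- the exponent for full triples -/
noncomputable def ex (p q r : ℕ) : ℝ :=
  min (1 / (p : ℝ) + 1 / q) (min (1 / (q : ℝ) + 1 / r) (1 / (r : ℝ) + 1 / p)) / 2

/-- **triples of full numbers** -/
theorem full_bound {ε C : ℝ} {M p q r : ℕ} (hε : 0 < ε) (hM : 1 ≤ M) (hC : 0 < C)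
    (hb : Bd ε M p C) (hp : 3 * M ≤ p) (hq : 3 * M ≤ q) (hr : 3 * M ≤ r) :
    ∃ K : ℝ, 0 < K ∧ ∀ H : ℕ, 1 ≤ H → (FullTriples p q r H).Finite ∧
      ((FullTriples p q r H).ncard : ℝ) ≤
        K * (H : ℝ) ^ (ex p q r + ε * (1 / (p : ℝ) + 1 / q + 1 / r)) := by
  have hp0 : 0 < p := by omega
  have hq0 : 0 < q := by omega
  have hr0 : 0 < r := by omega
  refine ⟨C * 8 ^ ε * 2, by positivity, fun H hH => ?_⟩
  have hH1 : (1 : ℝ) ≤ H := by exact_mod_cast hH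
  have hH0 : (0 : ℝ) < H := by linarith
  obtain ⟨pa, pb, pc, pd⟩ := root_bounds hp0 hH
  obtain ⟨qa, qb, qc, qd⟩ := root_bounds hq0 hH
  obtain ⟨ra, rb, rc, rd⟩ := root_bounds hr0 hH
  obtain ⟨A, hA⟩ : ∃ A, A = ⌈(H : ℝ) ^ (1 / (p : ℝ))⌉₊ := ⟨_, rfl⟩
  obtain ⟨B, hB⟩ : ∃ B, B = ⌈(H : ℝ) ^ (1 / (q : ℝ))⌉₊ := ⟨_, rfl⟩
  obtain ⟨D, hD⟩ : ∃ D, D = ⌈(H : ℝ) ^ (1 / (r : ℝ))⌉₊ := ⟨_, rfl⟩
  rw [← hA] at pa pb pc pd
  rw [← hB] at qa qb qc qd
  rw [← hD] at ra rb rc rd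
  have hsub : FullTriples p q r H ⊆ Box M p (A * B * D) A B D := by
    rintro t ⟨h1, h2, h3, h4, h5⟩
    have h1' := h1
    obtain ⟨ha, hb0, hab, habc⟩ := h1'
    have e1 := full_rad ha h2
    have e2 := full_rad hb0 h3
    have e3 := full_rad (by omega : 0 < t.2.2) h4
    have hac : t.1 ≤ t.2.2 := by omega
    have hbc : t.2.1 ≤ t.2.2 := by omega
    have f1 : radical t.1 ≤ A := pd _ _ e1 (hac.trans h5)
    have f2 : radical t.2.1 ≤ B := qd _ _ e2 (hbc.trans h5)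
    have f3 : radical t.2.2 ≤ D := rd _ _ e3 h5
    refine ⟨⟨h1, ?_, ?_, ?_⟩, f1, f2, f3⟩
    · rw [← rad3_eq h1]
      exact Nat.mul_le_mul (Nat.mul_le_mul f1 f2) f3
    · rw [← rad3_eq h1]
      exact cube_le (radical_pos _) (radical_pos _) (radical_pos _) hp hq hr (e1.trans hac)
        (e2.trans hbc) e3
    · refine (h5.trans pa).trans (Nat.pow_le_pow_left ?_ p)
      calc A = A * 1 * 1 := by ring
        _ ≤ A * B * D := Nat.mul_le_mul (Nat.mul_le_mul le_rfl qb) rb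
  obtain ⟨b1, b2⟩ := hb (A * B * D) (Nat.mul_pos (Nat.mul_pos pb qb) rb) A B D _ hsub
  refine ⟨b1, b2.trans ?_⟩
  have hsum : ((A * B * D : ℕ) : ℝ) ^ ε ≤ 8 ^ ε * (H : ℝ) ^ (ε * (1 / (p : ℝ) + 1 / q + 1 / r)) := by
    have h1 : ((A * B * D : ℕ) : ℝ) ≤ 8 * (H : ℝ) ^ (1 / (p : ℝ) + 1 / q + 1 / r) := by
      push_cast
      calc (A : ℝ) * B * D ≤ (2 * (H : ℝ) ^ (1 / (p : ℝ))) * (2 * (H : ℝ) ^ (1 / (q : ℝ))) *
            (2 * (H : ℝ) ^ (1 / (r : ℝ))) := by gcongr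
        _ = 8 * ((H : ℝ) ^ (1 / (p : ℝ)) * (H : ℝ) ^ (1 / (q : ℝ)) * (H : ℝ) ^ (1 / (r : ℝ))) := by
            ring
        _ = _ := by rw [← Real.rpow_add hH0, ← Real.rpow_add hH0]
    calc ((A * B * D : ℕ) : ℝ) ^ ε ≤ (8 * (H : ℝ) ^ (1 / (p : ℝ) + 1 / q + 1 / r)) ^ ε :=
          Real.rpow_le_rpow (Nat.cast_nonneg _) h1 hε.le
      _ = _ := by
          rw [Real.mul_rpow (by norm_num) (by positivity), ← Real.rpow_mul hH0.le,
            mul_comm ε]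
  have hpair : ∀ x y : ℕ, ∀ u v : ℝ, (x : ℝ) ≤ 2 * (H : ℝ) ^ u → (y : ℝ) ≤ 2 * (H : ℝ) ^ v →
      Real.sqrt ((x * y : ℕ) : ℝ) ≤ 2 * (H : ℝ) ^ ((u + v) / 2) := by
    intro x y u v hx hy
    rw [Real.sqrt_le_left (by positivity)]
    push_cast
    calc (x : ℝ) * y ≤ (2 * (H : ℝ) ^ u) * (2 * (H : ℝ) ^ v) := by gcongr
      _ = 4 * ((H : ℝ) ^ u * (H : ℝ) ^ v) := by ring
      _ = 4 * (H : ℝ) ^ (u + v) := by rw [← Real.rpow_add hH0]
      _ = (2 * (H : ℝ) ^ ((u + v) / 2)) ^ 2 := by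
          rw [mul_pow, ← Real.rpow_natCast ((H : ℝ) ^ ((u + v) / 2)), ← Real.rpow_mul hH0.le]
          norm_num
  have hmin : Real.sqrt ((min (A * B) (min (B * D) (D * A)) : ℕ) : ℝ) ≤
      2 * (H : ℝ) ^ ex p q r := by
    have s1 := hpair A B _ _ pc qc
    have s2 := hpair B D _ _ qc rc
    have s3 := hpair D A _ _ rc pc
    have t1 : Real.sqrt ((min (A * B) (min (B * D) (D * A)) : ℕ) : ℝ) ≤
        Real.sqrt ((A * B : ℕ) : ℝ) :=
      Real.sqrt_le_sqrt (by exact_mod_cast min_le_left _ _)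
    have t2 : Real.sqrt ((min (A * B) (min (B * D) (D * A)) : ℕ) : ℝ) ≤
        Real.sqrt ((B * D : ℕ) : ℝ) :=
      Real.sqrt_le_sqrt (by exact_mod_cast (min_le_right _ _).trans (min_le_left _ _))
    have t3 : Real.sqrt ((min (A * B) (min (B * D) (D * A)) : ℕ) : ℝ) ≤
        Real.sqrt ((D * A : ℕ) : ℝ) :=
      Real.sqrt_le_sqrt (by exact_mod_cast (min_le_right _ _).trans (min_le_right _ _))
    unfold ex
    rcases min_choice (1 / (p : ℝ) + 1 / q) (min (1 / (q : ℝ) + 1 / r) (1 / (r : ℝ) + 1 / p))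
      with h | h
    · rw [h]; exact t1.trans s1
    · rcases min_choice (1 / (q : ℝ) + 1 / r) (1 / (r : ℝ) + 1 / p) with h' | h'
      · rw [h, h']; exact t2.trans s2
      · rw [h, h']; exact t3.trans s3
  calc C * ((A * B * D : ℕ) : ℝ) ^ ε * Real.sqrt ((min (A * B) (min (B * D) (D * A)) : ℕ) : ℝ)
      ≤ C * (8 ^ ε * (H : ℝ) ^ (ε * (1 / (p : ℝ) + 1 / q + 1 / r))) * (2 * (H : ℝ) ^ ex p q r) := by
        gcongr
    _ = C * 8 ^ ε * 2 * ((H : ℝ) ^ ex p q r * (H : ℝ) ^ (ε * (1 / (p : ℝ) + 1 / q + 1 / r))) := by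
        ring
    _ = _ := by rw [← Real.rpow_add hH0]

/-- **consecutive full numbers** -/
theorem pairs_bound {ε C : ℝ} {M m : ℕ} (hε : 0 < ε) (hM : 1 ≤ M) (hC : 0 < C)
    (hb : Bd ε M m C) (hm : 3 * M ≤ m) :
    ∃ K : ℝ, 0 < K ∧ ∀ H : ℕ, 1 ≤ H → (FullPairs m H).Finite ∧
      ((FullPairs m H).ncard : ℝ) ≤ K * (H : ℝ) ^ ((1 / 2 + 2 * ε) / m) := by
  have hm0 : 0 < m := by omega
  have hm0r : (0 : ℝ) < m := by exact_mod_cast hm0
  refine ⟨C * 4 ^ (1 / 2 + 2 * ε), by positivity, fun H hH => ?_⟩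
  obtain ⟨N, hN⟩ : ∃ N, N = H + 1 := ⟨_, rfl⟩
  have hN1 : 1 ≤ N := by omega
  have hH1 : (1 : ℝ) ≤ H := by exact_mod_cast hH
  have hH0 : (0 : ℝ) < H := by linarith
  obtain ⟨pa, pb, pc, pd⟩ := root_bounds hm0 hN1
  obtain ⟨B, hB⟩ : ∃ B, B = ⌈(N : ℝ) ^ (1 / (m : ℝ))⌉₊ := ⟨_, rfl⟩
  rw [← hB] at pa pb pc pd
  have hB4 : (B : ℝ) ≤ 4 * (H : ℝ) ^ (1 / (m : ℝ)) := by
    have h1 : (N : ℝ) ^ (1 / (m : ℝ)) ≤ 2 * (H : ℝ) ^ (1 / (m : ℝ)) := by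
      calc (N : ℝ) ^ (1 / (m : ℝ)) ≤ (2 * (H : ℝ)) ^ (1 / (m : ℝ)) := by
            apply Real.rpow_le_rpow (Nat.cast_nonneg _) _ (by positivity)
            rw [hN]
            push_cast
            linarith
        _ = 2 ^ (1 / (m : ℝ)) * (H : ℝ) ^ (1 / (m : ℝ)) := Real.mul_rpow (by norm_num) hH0.le
        _ ≤ 2 ^ (1 : ℝ) * (H : ℝ) ^ (1 / (m : ℝ)) := by
            apply mul_le_mul_of_nonneg_right _ (by positivity)
            apply Real.rpow_le_rpow_of_exponent_le (by norm_num)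
            rw [div_le_one hm0r]
            exact_mod_cast hm0
        _ = _ := by rw [Real.rpow_one]
    linarith
  obtain ⟨f, hf⟩ : ∃ f : ℕ → ℕ × ℕ × ℕ, f = fun n => (1, n, n + 1) := ⟨_, rfl⟩
  obtain ⟨Z, hZ⟩ : ∃ Z, Z = f '' FullPairs m H := ⟨_, rfl⟩
  have hfinj : Function.Injective f := by
    intro n n' h
    rw [hf] at h
    simp only [Prod.mk.injEq] at h
    exact h.2.1
  have hsub : Z ⊆ Box M m (B * B) 1 B B := by
    rw [hZ]
    rintro _ ⟨n, ⟨h1, h2, h3, h4⟩, rfl⟩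
    rw [hf]
    have e2 := full_rad h1 h3
    have e3 := full_rad (Nat.succ_pos n) h4
    have f2 : radical n ≤ B := pd _ _ e2 (by omega)
    have f3 : radical (n + 1) ≤ B := pd _ _ e3 (by omega)
    have hr := rad3_eq (one_triple h1)
    simp only at hr
    rw [radical_one, one_mul] at hr
    refine ⟨⟨one_triple h1, ?_, ?_, ?_⟩, ?_, f2, f3⟩
    · rw [← hr]
      exact Nat.mul_le_mul f2 f3
    · rw [← hr]
      have h5 := cube_le (p := m) (q := m) (r := m) (c := n + 1) le_rfl (radical_pos n)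
        (radical_pos (n + 1)) hm hm hm (by rw [one_pow]; omega) (e2.trans (Nat.le_succ n)) e3
      rw [one_mul] at h5
      exact h5
    · show n + 1 ≤ (B * B) ^ m
      calc n + 1 ≤ N := by omega
        _ ≤ B ^ m := pa
        _ ≤ (B * B) ^ m := Nat.pow_le_pow_left (Nat.le_mul_of_pos_left B pb) m
    · show radical 1 ≤ 1
      rw [radical_one]
  obtain ⟨b1, b2⟩ := hb (B * B) (Nat.mul_pos pb pb) 1 B B _ hsub
  have hfin : (FullPairs m H).Finite := by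
    rw [hZ] at b1
    exact Set.Finite.of_finite_image b1 hfinj.injOn
  refine ⟨hfin, ?_⟩
  have hcard : (FullPairs m H).ncard = Z.ncard := by
    rw [hZ, Set.ncard_image_of_injective _ hfinj]
  rw [hcard]
  refine b2.trans ?_
  have hmin : ((min (1 * B) (min (B * B) (B * 1)) : ℕ) : ℝ) ≤ (B : ℝ) := by
    have h1 : min (1 * B) (min (B * B) (B * 1)) ≤ B :=
      (min_le_left _ _).trans (le_of_eq (one_mul B))
    exact Nat.cast_le.2 h1
  have hBr : (1 : ℝ) ≤ B := by exact_mod_cast pb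
  have hB0 : (0 : ℝ) < B := by linarith
  calc C * ((B * B : ℕ) : ℝ) ^ ε * Real.sqrt ((min (1 * B) (min (B * B) (B * 1)) : ℕ) : ℝ)
      ≤ C * ((B * B : ℕ) : ℝ) ^ ε * Real.sqrt (B : ℝ) := by
        apply mul_le_mul_of_nonneg_left (Real.sqrt_le_sqrt hmin) (by positivity)
    _ = C * (B : ℝ) ^ (1 / 2 + 2 * ε) := by
        rw [Real.sqrt_eq_rpow]
        push_cast
        rw [Real.mul_rpow hB0.le hB0.le, mul_assoc, ← Real.rpow_add hB0, ← Real.rpow_add hB0]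
        congr 2
        ring
    _ ≤ C * (4 * (H : ℝ) ^ (1 / (m : ℝ))) ^ (1 / 2 + 2 * ε) := by
        apply mul_le_mul_of_nonneg_left _ hC.le
        exact Real.rpow_le_rpow hB0.le hB4 (by positivity)
    _ = C * 4 ^ (1 / 2 + 2 * ε) * (H : ℝ) ^ ((1 / 2 + 2 * ε) / m) := by
        rw [Real.mul_rpow (by norm_num) (by positivity), ← Real.rpow_mul hH0.le, mul_assoc]
        congr 3
        ring

end Pool.Agent.V7H6.Box
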